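import Pool.Agent.Work.MP_833881_lc.Defs

/-!
# Pigeon-symmetric `R(k)` refutations of `onto-FPHP` are exponentially large
-/

set_option autoImplicit false

namespace Pool.Agent.Work.MP_833881_sy

open Finset Pool.Agent.Work.MP_833881_lc

variable {m n : ℕ}

/-- A permutation of the pigeons acts on literals. -/
def actV (σ : Equiv.Perm (Fin m)) (l : Lit (Fin m × Fin n)) : Lit (Fin m × Fin n) :=
  ((σ l.1.1, l.1.2), l.2)

/-- A permutation of the pigeons acts on terms. -/
def actT (σ : Equiv.Perm (Fin m)) (t : Term (Fin m × Fin n)) : Term (Fin m × Fin n) :=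
  t.image (actV σ)

/-- A permutation of the pigeons acts on lines. -/
def actL (σ : Equiv.Perm (Fin m)) (D : Line (Fin m × Fin n)) : Line (Fin m × Fin n) :=
  D.image (actT σ)

/-- A refutation is pigeon-symmetric if its set of lines is closed under the permutations of the
pigeons. -/
def PigeonSymmetric (π : List (Line (Fin m × Fin n))) : Prop :=
  ∀ σ : Equiv.Perm (Fin m), ∀ D ∈ π, actL σ D ∈ π

theorem actV_mul (σ τ : Equiv.Perm (Fin m)) (l : Lit (Fin m × Fin n)) :
    actV (σ * τ) l = actV σ (actV τ l) := rfl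

theorem actT_mul (σ τ : Equiv.Perm (Fin m)) (t : Term (Fin m × Fin n)) :
    actT (σ * τ) t = actT σ (actT τ t) := by
  unfold actT
  rw [image_image]
  rfl

theorem actL_mul (σ τ : Equiv.Perm (Fin m)) (D : Line (Fin m × Fin n)) :
    actL (σ * τ) D = actL σ (actL τ D) := by
  unfold actL
  rw [image_image]
  congr 1
  funext t
  exact actT_mul σ τ t

theorem actV_one (l : Lit (Fin m × Fin n)) : actV 1 l = l := rfl

theorem actT_one (t : Term (Fin m × Fin n)) : actT 1 t = t := by
  unfold actT
  rw [show (actV 1 : Lit (Fin m × Fin n) → _) = id from funext actV_one, image_id]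

theorem actL_one (D : Line (Fin m × Fin n)) : actL 1 D = D := by
  unfold actL
  rw [show (actT 1 : Term (Fin m × Fin n) → _) = id from funext actT_one, image_id]

theorem actT_inj (σ : Equiv.Perm (Fin m)) : Function.Injective (actT (n := n) σ) := by
  intro s t h
  have h1 := congrArg (actT σ⁻¹) h
  rwa [← actT_mul, ← actT_mul, inv_mul_cancel, actT_one, actT_one] at h1

theorem actL_inj (σ : Equiv.Perm (Fin m)) : Function.Injective (actL (n := n) σ) := by
  intro s t h
  have h1 := congrArg (actL σ⁻¹) h
  rwa [← actL_mul, ← actL_mul, inv_mul_cancel, actL_one, actL_one] at h1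

/-- the pigeons of a term -/
def pig (t : Term (Fin m × Fin n)) : Finset (Fin m) := t.image (fun l => l.1.1)

theorem pig_card (t : Term (Fin m × Fin n)) : (pig t).card ≤ t.card := card_image_le

theorem actT_fix {σ : Equiv.Perm (Fin m)} {t : Term (Fin m × Fin n)}
    (h : ∀ i ∈ pig t, σ i = i) : actT σ t = t := by
  unfold actT
  conv_rhs => rw [← image_id (s := t)]
  apply image_congr
  intro l hl
  have h1 : σ l.1.1 = l.1.1 := h _ (mem_image_of_mem _ hl)
  show ((σ l.1.1, l.1.2), l.2) = l
  rw [h1]

/-- all swaps of pigeons outside `W` fix `D` -/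
def Supp (D : Line (Fin m × Fin n)) (W : Finset (Fin m)) : Prop :=
  ∀ a b, a ∉ W → b ∉ W → actL (Equiv.swap a b) D = D

theorem exists_moved {D : Line (Fin m × Fin n)} {a b : Fin m}
    (h : actL (Equiv.swap a b) D ≠ D) : ∃ t ∈ D, actT (Equiv.swap a b) t ∉ D := by
  by_contra hcon
  push Not at hcon
  apply h
  apply eq_of_subset_of_card_le
  · intro t ht
    obtain ⟨s, hs, rfl⟩ := mem_image.1 ht
    exact hcon s hs
  · unfold actL
    rw [card_image_of_injective _ (actT_inj _)]

theorem supp_or {k : ℕ} (D : Line (Fin m × Fin n)) (hk : ∀ t ∈ D, t.card ≤ k) (r : ℕ) :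
    ∀ W0 : Finset (Fin m), (∃ W : Finset (Fin m), W.card ≤ W0.card + (k + 2) * r ∧ Supp D W) ∨
      ∃ S : Finset (Equiv.Perm (Fin m)), S.card = 2 ^ r ∧ (∀ σ ∈ S, ∀ i ∈ W0, σ i = i) ∧
        ∀ σ ∈ S, ∀ τ ∈ S, actL σ D = actL τ D → σ = τ := by
  induction r with
  | zero =>
    intro W0
    right
    refine ⟨{1}, by simp, ?_, ?_⟩
    · intro σ hσ i _
      rw [mem_singleton.1 hσ]
      rfl
    · intro σ hσ τ hτ _
      rw [mem_singleton.1 hσ, mem_singleton.1 hτ]
  | succ r ih =>
    intro W0
    by_cases hS : Supp D W0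
    · exact Or.inl ⟨W0, by omega, hS⟩
    unfold Supp at hS
    push Not at hS
    obtain ⟨a, b, ha, hb, hab⟩ := hS
    obtain ⟨T, hT, hTn⟩ := exists_moved hab
    set s := Equiv.swap a b with hs
    set W1 : Finset (Fin m) := W0 ∪ ({a, b} ∪ pig T) with hW1
    have hW1c : W1.card ≤ W0.card + (k + 2) := by
      have h1 : ({a, b} : Finset (Fin m)).card ≤ 2 := card_le_two
      have h2 := pig_card T
      have h3 := hk T hT
      have h4 := card_union_le W0 ({a, b} ∪ pig T)
      have h5 := card_union_le ({a, b} : Finset (Fin m)) (pig T)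
      rw [hW1]
      omega
    rcases ih W1 with ⟨W, hWc, hW⟩ | ⟨S, hSc, hSf, hSi⟩
    · exact Or.inl ⟨W, by nlinarith, hW⟩
    right
    have haW : a ∈ W1 := by simp [hW1]
    have hbW : b ∈ W1 := by simp [hW1]
    have hss : s * s = 1 := Equiv.swap_mul_self a b
    have hcomm : ∀ σ ∈ S, σ * s = s * σ := by
      intro σ hσ
      have h1 := hSf σ hσ a haW
      have h2 := hSf σ hσ b hbW
      rw [hs, Equiv.mul_swap_eq_swap_mul, h1, h2]
    have hsT : ∀ σ ∈ S, actT σ (actT s T) = actT s T := by
      intro σ hσ
      apply actT_fix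
      intro i hi
      apply hSf σ hσ
      obtain ⟨l, hl, rfl⟩ := mem_image.1 hi
      obtain ⟨l', hl', rfl⟩ := mem_image.1 hl
      show s l'.1.1 ∈ W1
      have hp : l'.1.1 ∈ W1 := by
        rw [hW1]
        exact mem_union_right _ (mem_union_right _ (mem_image_of_mem _ hl'))
      by_cases e1 : l'.1.1 = a
      · rw [e1, hs, Equiv.swap_apply_left]; exact hbW
      · by_cases e2 : l'.1.1 = b
        · rw [e2, hs, Equiv.swap_apply_right]; exact haW
        · rw [hs, Equiv.swap_apply_of_ne_of_ne e1 e2]; exact hp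
    have hcross : ∀ σ ∈ S, ∀ τ ∈ S, actL (σ * s) D ≠ actL τ D := by
      intro σ hσ τ hτ heq
      have h1 : actT (σ * s) T ∈ actL τ D := by
        rw [← heq]
        exact mem_image_of_mem _ hT
      rw [actT_mul, hsT σ hσ] at h1
      obtain ⟨T', hT', h2⟩ := mem_image.1 h1
      have h3 : T' = actT s T := actT_inj τ (h2.trans (hsT τ hτ).symm)
      exact hTn (h3 ▸ hT')
    have hdisj : Disjoint S (S.image (fun σ => σ * s)) := by
      rw [disjoint_left]
      intro σ hσ hσ'
      obtain ⟨τ, hτ, h1⟩ := mem_image.1 hσ'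
      exact hcross τ hτ σ hσ (by rw [h1])
    refine ⟨S ∪ S.image (fun σ => σ * s), ?_, ?_, ?_⟩
    · rw [card_union_of_disjoint hdisj, card_image_of_injective _ (mul_left_injective s), hSc,
        pow_succ]
      ring
    · intro σ hσ i hi
      have hiW : i ∈ W1 := mem_union_left _ hi
      rcases mem_union.1 hσ with h | h
      · exact hSf σ h i hiW
      · obtain ⟨τ, hτ, rfl⟩ := mem_image.1 h
        have h1 : s i = i := by
          rw [hs]
          apply Equiv.swap_apply_of_ne_of_ne
          · rintro rfl; exact ha hi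
          · rintro rfl; exact hb hi
        rw [Equiv.Perm.mul_apply, h1]
        exact hSf τ hτ i hiW
    · intro σ hσ τ hτ heq
      rcases mem_union.1 hσ with h | h <;> rcases mem_union.1 hτ with h' | h'
      · exact hSi σ h τ h' heq
      · obtain ⟨τ', hτ', rfl⟩ := mem_image.1 h'
        exact absurd heq.symm (hcross τ' hτ' σ h)
      · obtain ⟨σ', hσ', rfl⟩ := mem_image.1 h
        exact absurd heq (hcross σ' hσ' τ h')
      · obtain ⟨σ', hσ', rfl⟩ := mem_image.1 h
        obtain ⟨τ', hτ', rfl⟩ := mem_image.1 h'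
        have heq' : actL (σ' * s) D = actL (τ' * s) D := heq
        rw [hcomm σ' hσ', hcomm τ' hτ', actL_mul, actL_mul] at heq'
        rw [hSi σ' hσ' τ' hτ' (actL_inj s heq')]

/-- truth under the assignment of an injection `g` of the holes into the pigeons -/
def sat (g : Fin n → Fin m) (D : Line (Fin m × Fin n)) : Prop :=
  ∃ t ∈ D, ∀ l ∈ t, (g l.1.2 = l.1.1 ↔ l.2 = true)

theorem sat_act (σ : Equiv.Perm (Fin m)) (g : Fin n → Fin m) (D : Line (Fin m × Fin n)) :
    sat (fun j => σ (g j)) (actL σ D) ↔ sat g D := by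
  unfold sat actL actT actV
  constructor
  · rintro ⟨t, ht, h⟩
    obtain ⟨s, hs, rfl⟩ := mem_image.1 ht
    refine ⟨s, hs, fun l hl => ?_⟩
    have h1 := h _ (mem_image_of_mem _ hl)
    simpa using h1
  · rintro ⟨t, ht, h⟩
    refine ⟨_, mem_image_of_mem _ ht, fun l hl => ?_⟩
    obtain ⟨l', hl', rfl⟩ := mem_image.1 hl
    simpa using h l' hl'

theorem exchange {D : Line (Fin m × Fin n)} {W X : Finset (Fin m)} (hW : Supp D W)
    (hc : W.card + X.card ≤ n) : ∀ (N : ℕ) (g : Fin n → Fin m), Function.Injective g →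
    (∀ i ∈ W, i ∈ univ.image g) → (X \ univ.image g).card ≤ N →
    ∃ g' : Fin n → Fin m, Function.Injective g' ∧ (∀ i ∈ W ∪ X, i ∈ univ.image g') ∧
      (sat g' D ↔ sat g D) := by
  intro N
  induction N with
  | zero =>
    intro g hg hWg hX
    refine ⟨g, hg, fun i hi => ?_, Iff.rfl⟩
    rcases mem_union.1 hi with h | h
    · exact hWg i h
    · have h1 : X \ univ.image g = ∅ := card_eq_zero.1 (by omega)
      by_contra hcon
      have : i ∈ X \ univ.image g := mem_sdiff.2 ⟨h, hcon⟩
      rw [h1] at this
      simp at this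
  | succ N ih =>
    intro g hg hWg hX
    by_cases hemp : X \ univ.image g = ∅
    · exact ih g hg hWg (by rw [hemp]; simp)
    obtain ⟨x, hx⟩ := nonempty_iff_ne_empty.2 hemp
    obtain ⟨hxX, hxg⟩ := mem_sdiff.1 hx
    have hxW : x ∉ W := fun h => hxg (hWg x h)
    obtain ⟨b, hb, hbn⟩ : ∃ b ∈ univ.image g, b ∉ W ∪ X := by
      by_contra hcon
      push Not at hcon
      have h1 : insert x (univ.image g) ⊆ W ∪ X := by
        intro y hy
        rcases mem_insert.1 hy with rfl | h
        · exact mem_union_right _ hxX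
        · exact hcon y h
      have h2 := card_le_card h1
      rw [card_insert_of_notMem hxg, card_image_of_injective _ hg, card_univ, Fintype.card_fin] at h2
      have h3 := card_union_le W X
      omega
    have hbW : b ∉ W := fun h => hbn (mem_union_left _ h)
    have hbX : b ∉ X := fun h => hbn (mem_union_right _ h)
    set s := Equiv.swap x b with hs
    have hsg : ∀ y, y ∈ univ.image g → y ≠ b → y ∈ univ.image (fun j => s (g j)) := by
      intro y hy hyb
      obtain ⟨j, -, rfl⟩ := mem_image.1 hy
      refine mem_image.2 ⟨j, mem_univ _, ?_⟩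
      rw [hs]
      apply Equiv.swap_apply_of_ne_of_ne _ hyb
      rintro h
      exact hxg (h ▸ hy)
    have hxs : x ∈ univ.image (fun j => s (g j)) := by
      obtain ⟨j, -, hj⟩ := mem_image.1 hb
      refine mem_image.2 ⟨j, mem_univ _, ?_⟩
      rw [hj, hs, Equiv.swap_apply_right]
    obtain ⟨g', h1, h2, h3⟩ := ih (fun j => s (g j)) (s.injective.comp hg)
      (fun i hi => hsg i (hWg i hi) (fun h => hbW (h ▸ hi))) (by
        have hsub : X \ univ.image (fun j => s (g j)) ⊆ (X \ univ.image g).erase x := by
          intro y hy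
          obtain ⟨hy1, hy2⟩ := mem_sdiff.1 hy
          refine mem_erase.2 ⟨fun h => hy2 (h ▸ hxs), mem_sdiff.2 ⟨hy1, fun h => ?_⟩⟩
          exact hy2 (hsg y h (fun h' => hbX (h' ▸ hy1)))
        have h4 := card_le_card hsub
        rw [card_erase_of_mem hx] at h4
        omega)
    refine ⟨g', h1, h2, h3.trans ?_⟩
    have h5 := sat_act s g D
    rwa [hW x b hxW hbW] at h5

theorem main {k : ℕ} (hnm : n ≤ m) {r : ℕ} (hr : 3 * (k + 2) * r ≤ n)
    {π : List (Line (Fin m × Fin n))} (hπ : IsRefutation k (ontoFPHP m n) π)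
    (hsym : PigeonSymmetric π) : 2 ^ r ≤ π.toFinset.card := by
  by_contra hlt
  push Not at hlt
  have hn : 0 < n ∨ n = 0 := by omega
  -- supports
  have hsupp : ∀ D ∈ π, ∃ W : Finset (Fin m), W.card ≤ (k + 2) * r ∧ Supp D W := by
    intro D hD
    rcases supp_or D (fun t ht => (hπ.dnf D hD t ht).2) r ∅ with ⟨W, h1, h2⟩ | ⟨S, h1, -, h3⟩
    · exact ⟨W, by simpa using h1, h2⟩
    · exfalso
      have h4 : (S.image (fun σ => actL σ D)).card = 2 ^ r := by
        rw [card_image_of_injOn, h1]
        intro σ hσ τ hτ h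
        exact h3 σ hσ τ hτ h
      have h5 : S.image (fun σ => actL σ D) ⊆ π.toFinset := by
        intro E hE
        obtain ⟨σ, -, rfl⟩ := mem_image.1 hE
        exact List.mem_toFinset.2 (hsym σ D hD)
      have := card_le_card h5
      omega
  have key : ∀ (N : ℕ) (pre : List (Line (Fin m × Fin n))) (D : Line (Fin m × Fin n))
      (suf : List (Line (Fin m × Fin n))), pre.length ≤ N → π = pre ++ D :: suf →
      ∀ W : Finset (Fin m), W.card ≤ (k + 2) * r → Supp D W → ∀ g : Fin n → Fin m,
      Function.Injective g → (∀ i ∈ W, i ∈ univ.image g) → sat g D := by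
    intro N
    induction N using Nat.strong_induction_on with
    | _ N ih =>
    intro pre D suf hlen hsplit W hWc hW g hg hWg
    have hpre : ∀ E ∈ pre, ∃ WE : Finset (Fin m), WE.card ≤ (k + 2) * r ∧
        ∀ g' : Fin n → Fin m, Function.Injective g' → (∀ i ∈ WE, i ∈ univ.image g') →
          sat g' E := by
      intro E hE
      obtain ⟨p1, p2, hp⟩ := List.append_of_mem hE
      have hEπ : E ∈ π := by rw [hsplit]; exact List.mem_append_left _ hE
      obtain ⟨WE, h1, h2⟩ := hsupp E hEπ
      refine ⟨WE, h1, fun g' hg' hWg' => ?_⟩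
      have hl : p1.length < pre.length := by rw [hp]; simp
      refine ih p1.length (by omega) p1 E (p2 ++ D :: suf) le_rfl ?_ WE h1 h2 g' hg' hWg'
      rw [hsplit, hp]
      simp
    by_contra hns
    -- two premises
    have two : ∀ E1 ∈ pre, ∀ E2 ∈ pre,
        (∀ g' : Fin n → Fin m, sat g' E1 → sat g' E2 → sat g' D) → False := by
      intro E1 h1 E2 h2 hs
      obtain ⟨W1, hc1, hW1⟩ := hpre E1 h1
      obtain ⟨W2, hc2, hW2⟩ := hpre E2 h2
      have hcu := card_union_le W1 W2
      obtain ⟨g', hg', hr', hiff⟩ := exchange (X := W1 ∪ W2) hW (by nlinarith)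
        _ g hg hWg le_rfl
      apply hns
      rw [← hiff]
      exact hs g' (hW1 g' hg' fun i hi => hr' i (by simp [hi]))
        (hW2 g' hg' fun i hi => hr' i (by simp [hi]))
    have hstep := hπ.step pre D suf hsplit
    cases hstep with
    | ax hF =>
      apply hns
      rcases hF with (⟨i, rfl⟩ | ⟨i, i', j, hne, rfl⟩) | (⟨i, j, j', hne, rfl⟩ | ⟨j, rfl⟩)
      · by_cases hi : i ∈ univ.image g
        · obtain ⟨j, -, hj⟩ := mem_image.1 hi
          exact ⟨{((i, j), true)}, mem_image_of_mem _ (mem_univ j), fun l hl => by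
            rw [mem_singleton.1 hl]; simp [hj]⟩
        · have hiW : i ∉ W := fun h => hi (hWg i h)
          by_cases hlt' : W.card < n
          · obtain ⟨b, hb, hbW⟩ : ∃ b ∈ univ.image g, b ∉ W := by
              by_contra hcon
              push Not at hcon
              have h2 := card_le_card (fun y hy => hcon y hy : univ.image g ⊆ W)
              rw [card_image_of_injective _ hg, card_univ, Fintype.card_fin] at h2
              omega
            obtain ⟨j, -, hj⟩ := mem_image.1 hb
            rw [← hW i b hiW hbW]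
            refine ⟨actT (Equiv.swap i b) {((i, j), true)}, mem_image_of_mem _
              (mem_image_of_mem _ (mem_univ j)), fun l hl => ?_⟩
            obtain ⟨l', hl', rfl⟩ := mem_image.1 hl
            rw [mem_singleton.1 hl']
            simp [actV, hj]
          · exfalso
            have h3 : n ≤ (k + 2) * r := by omega
            have h4 : n = 0 := by nlinarith
            have h5 : r = 0 := by
              rcases Nat.eq_zero_or_pos r with h | h
              · exact h
              · nlinarith
            rw [h5, pow_zero] at hlt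
            have h6 : π.toFinset = ∅ := card_eq_zero.1 (by omega)
            have h7 : (∅ : Line (Fin m × Fin n)) ∈ π.toFinset := List.mem_toFinset.2 hπ.bot
            rw [h6] at h7
            simp at h7
      · by_cases h1 : g j = i
        · refine ⟨{((i', j), false)}, by simp [exclAx], fun l hl => ?_⟩
          rw [mem_singleton.1 hl]
          simp only [Bool.false_eq_true, iff_false]
          rw [h1]; exact hne
        · refine ⟨{((i, j), false)}, by simp [exclAx], fun l hl => ?_⟩
          rw [mem_singleton.1 hl]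
          simpa using h1
      · by_cases h1 : g j = i
        · refine ⟨{((i, j'), false)}, by simp [exclAx], fun l hl => ?_⟩
          rw [mem_singleton.1 hl]
          simp only [Bool.false_eq_true, iff_false]
          intro h2
          exact hne (hg (h1.trans h2.symm))
        · refine ⟨{((i, j), false)}, by simp [exclAx], fun l hl => ?_⟩
          rw [mem_singleton.1 hl]
          simpa using h1
      · exact ⟨{((g j, j), true)}, mem_image_of_mem _ (mem_univ (g j)), fun l hl => by
          rw [mem_singleton.1 hl]; simp⟩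
    | weak h1 h2 =>
      exact two _ h1 _ h1 fun g' h _ => by
        obtain ⟨t, ht, h3⟩ := h
        exact ⟨t, h2 ht, h3⟩
    | andI h1 h2 =>
      rename_i C C' s t
      refine two _ h1 _ h2 fun g' h h' => ?_
      obtain ⟨u, hu, h3⟩ := h
      obtain ⟨v, hv, h4⟩ := h'
      rcases mem_insert.1 hu with rfl | hu
      · rcases mem_insert.1 hv with rfl | hv
        · refine ⟨_, mem_insert_self _ _, fun l hl => ?_⟩
          rcases mem_union.1 hl with h | h
          · exact h3 l h
          · exact h4 l h
        · exact ⟨v, mem_insert_of_mem (mem_union_right _ hv), h4⟩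
      · exact ⟨u, mem_insert_of_mem (mem_union_left _ hu), h3⟩
    | cut h1 h2 =>
      rename_i C C' t
      refine two _ h1 _ h2 fun g' h h' => ?_
      obtain ⟨u, hu, h3⟩ := h
      obtain ⟨v, hv, h4⟩ := h'
      rcases mem_insert.1 hu with rfl | hu
      · rcases mem_union.1 hv with hv | hv
        · exact ⟨v, mem_union_right _ hv, h4⟩
        · exfalso
          obtain ⟨l, hl, rfl⟩ := mem_image.1 hv
          have e1 := h3 l hl
          have e2 := h4 (neg l) (mem_singleton_self _)
          simp only [neg] at e2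
          cases hb : l.2 <;> simp [hb] at e1 e2 <;> tauto
      · exact ⟨u, mem_union_left _ hu, h3⟩
  obtain ⟨p1, p2, hp⟩ := List.append_of_mem hπ.bot
  have hfin := key p1.length p1 ∅ p2 le_rfl hp ∅ (by simp) (fun a b _ _ => by simp [actL])
    (Fin.castLE hnm) (Fin.castLE_injective hnm) (by simp)
  obtain ⟨t, ht, -⟩ := hfin
  simp at ht

end Pool.Agent.Work.MP_833881_sy
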